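import Pool.Agent.Helper70.EC.All
import Pool.Agent.Helper82.SY.M_LN
import Pool.Agent.Helper82.SY.M_TR
import Pool.Agent.Helper8.SY.M_M1
import Pool.Agent.Helper42.SY.M_MX
import Pool.Agent.Helper42.SY.M_NR
import Pool.Agent.Helper64.SY.M_DN
import Pool.Agent.Helper40.SY.M_NU
import Pool.Agent.Helper47.SY.M_LT
import Pool.Agent.Helper64.SY.M_HV
import Pool.Agent.Helper90.SY.M_SW
import Pool.Agent.Helper8.SY.M_FI

/-!
# Project SY: assembly
-/

set_option autoImplicit false

namespace Pool.Agent.Helper94.SY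

theorem pLN : StLN := Pool.Agent.Helper82.SY.hLN
theorem pTR : StTR := Pool.Agent.Helper82.SY.hTR
theorem pM1 : StM1 := Pool.Agent.Helper8.SY.hM1 pTR
theorem pMX : StMX := Pool.Agent.Helper42.SY.hMX pM1
theorem pNR : StNR := Pool.Agent.Helper42.SY.hNR
theorem pDN : StDN := Pool.Agent.Helper64.SY.hDN pLN pMX pNR
theorem pNU : StNU := Pool.Agent.Helper40.SY.hNU
theorem pLT : StLT := Pool.Agent.Helper47.SY.hLT pLN
theorem pHV : StHV := Pool.Agent.Helper64.SY.hHV
theorem pSW : StSW := Pool.Agent.Helper90.SY.hSW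
theorem pFI : StFI := Pool.Agent.Helper8.SY.hFI pLN pDN pNU pLT pHV pSW Pool.Agent.Helper70.EC.pT2

end Pool.Agent.Helper94.SY
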