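import Pool.Agent.Helper70.EC.St

/-!
# Project SY (MP_5c9371_al): product-free subsets of `SL₂(F_p)` and dense cosets of Sylow `p`-subgroups

THEOREM. `S ⊆ G = SL₂(F_p)` product-free, `n = |G| = p (p² - 1)`, `s > 1/2`: at most `200 (2s-1)^(-2/3) n^(13/15)` elements
of `S` lie in a coset of a Sylow `p`-subgroup (`p` elements) in which `S` has density at least `s`.

Rows: `G` acts on row vectors `W = F_p²` from the right, `rmul r g = r g`. The cosets of Sylow `p`-subgroups are the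
lines `{g : r g = v}` (`r, v ≠ 0`), `p` elements each; `(r, v)` and `(c r, c v)` give the same line. For a set `F` of pairs
`RR F g` is the number of rows `r` with `(r, r g) ∈ F`, a sum of lines.

Idea. For a sum of lines `R = RR F` with at most `K` lines in every Borel coset `TT f h R` is
`(∑ f)(∑ h)(∑ R)/n` with error `2p √(K(p-1)|F|) |f| |h|`, for ALL `f`, `h` (TR, MX). For `f = R` on `S`, `0` off `S`, product
freeness gives `TT f f R + TT f R f ≤ TT f R R`; if `S` has density `> 1/2` on the lines this bounds `|F|` (DN, NU).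
If a Borel coset contains more than `K` dense lines, `S` is dense in the Borel coset, and `StT2` of Helper70/EC applies (HV).
-/

set_option autoImplicit false

namespace Pool.Agent.Helper94.SY

open Finset
open scoped Classical
open scoped LinearAlgebra.Projectivization
open Pool.Agent.Helper1.PFS (G rmul lineSum StA)
open Pool.Agent.Helper70.EC (nsq PF TT StT2)

/-- row vectors -/
abbrev W (p : ℕ) : Type := ZMod p × ZMod p

section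

variable {p : ℕ} [Fact p.Prime]

/-- the number of rows `r` with `(r, r g) ∈ F` -/
noncomputable def RR (F : Finset (W p × W p)) (g : G p) : ℝ :=
  ∑ r : W p, if (r, rmul r g) ∈ F then 1 else 0

/-- the number of units `c` with `(r, c v) ∈ F` -/
noncomputable def mu (F : Finset (W p × W p)) (r v : W p) : ℝ :=
  ∑ c : (ZMod p)ˣ, if (r, (c : ZMod p) • v) ∈ F then 1 else 0

/-- the number of elements of `S` on the line `{g : r g = v}` -/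
noncomputable def dl (S : Finset (G p)) (r v : W p) : ℝ :=
  ∑ g ∈ S, if rmul r g = v then 1 else 0

/-- the pairs `(r, v)` of nonzero rows whose line contains at least `s p` elements of `S` -/
noncomputable def DD (S : Finset (G p)) (s : ℝ) : Finset (W p × W p) :=
  univ.filter fun e => e.1 ≠ 0 ∧ e.2 ≠ 0 ∧ s * p ≤ dl S e.1 e.2

/-- the pairs in `DD S s` with at most `K` dense lines in the same Borel coset -/
noncomputable def FF (S : Finset (G p)) (s K : ℝ) : Finset (W p × W p) :=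
  (DD S s).filter fun e => mu (DD S s) e.1 e.2 ≤ K

end

/-- LN. Lines have `p` elements.
PROOF. For `r = (0, 1)`: `rmul (0,1) g = row2 g` (`rmul_01` in `Helper1/PFS/C.lean`) and for `z` with `row2 z = v` the elements
`g` with `row2 g = v` are `uu s * z`, `s ∈ F_p`, without repetition (`exists_uu`, `row2_uu`, `uu_left_inj`). Such a `z` exists for
every `v ≠ 0` (a matrix of determinant `1` with bottom row `v = (v₁, v₂)`: top row `(v₂⁻¹, 0)` if `v₂ ≠ 0`, `(0, -v₁⁻¹)` if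
`v₂ = 0`). In general choose `k` with bottom row `r`; `rmul r g = rmul (0,1) (k * g)` (`rmul` is a right action), and `g ↦ k * g`
is a bijection. -/
def StLN : Prop := ∀ (p : ℕ) [Fact p.Prime] (r v : W p), r ≠ 0 → v ≠ 0 →
  (∑ g : G p, if rmul r g = v then (1 : ℝ) else 0) = p

/-- TR. Trace formula for a sum of lines.
PROOF. The right side is `∑_{(r,v) ∈ F} ∑_x ∑_a ∑_b f(a) h(b) [r a = x] [x b = v] = ∑_a ∑_b f(a) h(b) ∑_{(r,v) ∈ F} [r (a b) = v]`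
(sum over `x`: `x = r a`, and `(r a) b = r (a b)`), and `∑_{(r,v) ∈ F} [r g = v] = RR F g`. -/
def StTR : Prop := ∀ (p : ℕ) [Fact p.Prime] (F : Finset (W p × W p)) (f h : G p → ℝ),
  TT f h (RR F) = ∑ e ∈ F, ∑ x : W p, lineSum f e.1 x * lineSum h x e.2

/-- M1. The estimate for balanced functions.
PROOF. `A(r) = ∑_x lineSum f r x ^ 2`, `B(v) = ∑_x lineSum h x v ^ 2`. By TR and Cauchy-Schwarz in `x`:
`|TT f h (RR F)| ≤ T := ∑_{(r,v)} [(r,v) ∈ F] √A(r) √B(v)`. `B(c v) = B(v)` for units `c` (substitute `x → c x`, `lineSum_smul` in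
`Helper1/PFS/A.lean`). For every unit `c`, substituting `v → c v`: `T = ∑_{(r,v)} [(r, c v) ∈ F] √A(r) √B(v)`; sum over the `p - 1`
units: `(p-1) T = ∑_{(r,v)} mu F r v √A(r) √B(v)`. Cauchy-Schwarz: `((p-1) T)² ≤ (∑ mu²) (∑_r A(r)) (∑_v B(v))`,
`∑_{(r,v)} mu² ≤ K ∑_{(r,v)} mu = K (p-1) |F|`, and `∑_r A(r), ∑_v B(v) ≤ 2p(p-1) nsq` by `StA` (for `B` exchange the order of
summation). So `T² ≤ K (p-1)|F| · 4p² nsq f nsq h`. -/
def StM1 : Prop := ∀ (p : ℕ) [Fact p.Prime] (F : Finset (W p × W p)) (K : ℝ), 0 ≤ K →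
  (∀ r v, mu F r v ≤ K) → ∀ f h : G p → ℝ, ∑ g, f g = 0 → ∑ g, h g = 0 →
  TT f h (RR F) ^ 2 ≤ 4 * (p : ℝ) ^ 2 * (K * (p - 1) * F.card) * nsq f * nsq h

/-- MX. Mixing for sums of lines, arbitrary functions.
PROOF. `n = |G| = p(p²-1)` (`card_G` in `Helper1/PFS/Fin.lean`), `c = (∑ f)/n`, `c' = (∑ h)/n`, `f° = f - c`, `h° = h - c'`. `TT` is
trilinear and `TT 1 h R = (∑ h)(∑ R)`, `TT f° 1 R = (∑ f°)(∑ R) = 0` (substitute `a b → u` in the third factor). So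
`TT f h R = TT f° h° R + c (∑ h)(∑ R)`. Apply M1 to `f°`, `h°`; `nsq f° = nsq f - n c² ≤ nsq f`, same for `h`. -/
def StMX : Prop := ∀ (p : ℕ) [Fact p.Prime] (F : Finset (W p × W p)) (K : ℝ), 0 ≤ K →
  (∀ r v, mu F r v ≤ K) → ∀ f h : G p → ℝ,
  (TT f h (RR F) - (∑ g, f g) * (∑ g, h g) * (∑ g, RR F g) / ((p : ℝ) * ((p : ℝ) ^ 2 - 1))) ^ 2 ≤
    4 * (p : ℝ) ^ 2 * (K * (p - 1) * F.card) * nsq f * nsq h

/-- NR. The `ℓ²` norm of a sum of lines.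
PROOF. `R = RR F`, `c = (∑ R)/n`, `R° = R - c` (sum `0`). `nsq R° = ∑ R° R = ∑_{(r,v) ∈ F} lineSum R° r v` (exchange of sums).
Cauchy-Schwarz: `(nsq R°)² ≤ |F| ∑_{(r,v) ∈ F} (lineSum R° r v)² ≤ |F| 2p(p-1) nsq R°` (`StA`). So `nsq R° ≤ 2p(p-1)|F|`, and
`nsq R = nsq R° + n c²`, `n c² = (∑ R)²/n`. -/
def StNR : Prop := ∀ (p : ℕ) [Fact p.Prime] (F : Finset (W p × W p)),
  nsq (RR F) ≤ 2 * p * (p - 1) * F.card + (∑ g, RR F g) ^ 2 / ((p : ℝ) * ((p : ℝ) ^ 2 - 1))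

/-- DN. Dense lines. Hypotheses: LN, MX, NR.
PROOF. `R = RR F`, `f(g) = R(g)` for `g ∈ S`, `0` otherwise; `P = ∑ R = p |F|` (LN), `Q = ∑ f = ∑_{e ∈ F} dl S e.1 e.2 ≥ s P`,
`Q ≤ P`; `0 ≤ f ≤ R`, so `nsq f ≤ nsq R =: X`; `E = 2p √(K(p-1)|F|)`. For all `a, b`:
`f(a) f(b) R(ab) + f(a) R(b) f(ab) ≤ f(a) R(b) R(ab)`: clear for `a ∉ S`; for `a ∈ S` not both `b ∈ S` and `ab ∈ S`. So
`TT f f R + TT f R f ≤ TT f R R`. `TT f R f = TT f̌ f R` with `f̌(g) = f(g⁻¹)` (substitute `b = a⁻¹ u`; then `a → a⁻¹`). MX: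
`TT f f R ≥ Q² P/n - E X`, `TT f̌ f R ≥ Q² P/n - E X`, `TT f R R ≤ Q P²/n + E X`. So `Q P (2Q - P)/n ≤ 3 E X`. Since `Q ≥ s P`,
`s > 1/2`: `Q(2Q-P) ≥ s(2s-1) P²`; `P³/n = p³|F|³/n ≥ |F|³`. NR: `X ≤ 2p(p-1)|F| + p |F|²/(p²-1)`. -/
def StDN : Prop := ∀ (p : ℕ) [Fact p.Prime] (S : Finset (G p)), (∀ x ∈ S, ∀ y ∈ S, x * y ∉ S) →
  ∀ (F : Finset (W p × W p)) (K s : ℝ), 0 ≤ K → (∀ r v, mu F r v ≤ K) → 1 / 2 < s →
  (∀ e ∈ F, e.1 ≠ 0 ∧ e.2 ≠ 0 ∧ s * p ≤ dl S e.1 e.2) →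
  s * (2 * s - 1) * (F.card : ℝ) ^ 3 ≤ 6 * p * Real.sqrt (K * (p - 1) * F.card) *
    (2 * p * (p - 1) * F.card + p * (F.card : ℝ) ^ 2 / ((p : ℝ) ^ 2 - 1))

/-- NU. Numerics (pure real inequality; `p ≥ 2`).
PROOF. `y = |F|` (`y = 0` is clear, let `y > 0`), `1/(p²-1) ≤ (4/3)/p²`. Case `y ≤ p³`: `p y²/(p²-1) ≤ (4/3) y²/p ≤ (4/3) p² y`, the
bracket is at most `(10/3) p² y`, so `s(2s-1) y³ ≤ 20 p³ √(K p y) y`, and with `s ≥ 1/2`: `y² ≤ (40/(2s-1)) p³ √(K p y)`,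
`y^(3/2) ≤ (40/(2s-1)) p^(7/2) K^(1/2)`; raise to the power `2/3`. Case `y > p³`: `2p(p-1) y ≤ 2 y²/p`, the bracket is at most
`(10/3) y²/p`, `s(2s-1) y³ ≤ 20 √(K p y) y²`, `√y ≤ (40/(2s-1)) √(K p)`, `y ≤ 1600 K p/(2s-1)²`. -/
def StNU : Prop := ∀ (p y K s : ℝ), 2 ≤ p → 0 ≤ y → 0 ≤ K → 1 / 2 < s →
  s * (2 * s - 1) * y ^ 3 ≤ 6 * p * Real.sqrt (K * (p - 1) * y) *
    (2 * p * (p - 1) * y + p * y ^ 2 / (p ^ 2 - 1)) →
  y ≤ (40 / (2 * s - 1)) ^ (2 / 3 : ℝ) * p ^ (7 / 3 : ℝ) * K ^ (1 / 3 : ℝ) ∨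
  (p ^ 3 < y ∧ y ≤ 1600 * K * p / (2 * s - 1) ^ 2)

/-- LT. The elements on light dense lines. Hypothesis: LN.
PROOF. (1) if `(r, c v) ∈ FF` for some unit `c`, then `mu (DD) r (c v) ≤ K` and `mu (DD) r (c v) = mu (DD) r v` (reindex the units),
`mu (FF) r v ≤ mu (DD) r v ≤ K` (`FF ⊆ DD`); otherwise `mu (FF) r v = 0`. (2) `dl S (c r) (c v) = dl S r v` for units `c`
(`rmul_smul` in `Helper1/PFS/A.lean`), hence `(r, v) ∈ FF` implies `(c r, c v) ∈ FF`. If `g ∈ S` and `(r, r g) ∈ FF`, then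
`(c r, (c r) g) ∈ FF` for all `p - 1` units, and the `c r` are different (`r ≠ 0`): `RR FF g ≥ p - 1`. So
`(p-1) N ≤ ∑_{g ∈ S} RR FF g = ∑_{e ∈ FF} dl S e.1 e.2 ≤ p |FF|` (LN: `dl S r v ≤ p`), `N ≤ (p/(p-1)) |FF| ≤ 2 |FF|`. -/
def StLT : Prop := ∀ (p : ℕ) [Fact p.Prime] (S : Finset (G p)) (s K : ℝ), 0 ≤ K →
  (∀ r v, mu (FF S s K) r v ≤ K) ∧
  ((S.filter fun g => ∃ r : W p, (r, rmul r g) ∈ FF S s K).card : ℝ) ≤ 2 * (FF S s K).card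

/-- HV. The elements on heavy dense lines lie in dense Borel cosets.
PROOF. `v = r g ≠ 0`. For the more than `K` units `c` with `(r, c v) ∈ DD` the sets `{h ∈ S : r h = c v}` are disjoint and have at
least `s p ≥ p/2` elements: together more than `K p / 2 = s' p² ≥ s' p (p-1)` elements of `S`. Let `x = [(-v₂, v₁)ᵗ]`,
`z = [(-r₂, r₁)ᵗ]` in the projective line. For `h` with `r h = c v` the row `r` annihilates `h (-v₂, v₁)ᵗ` (it is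
`c v · (-v₂, v₁)ᵗ = 0`), so `h x = z`, in particular (`c = 1`) `g x = z`. So all these `h` satisfy `h x = g x`. -/
def StHV : Prop := ∀ (p : ℕ) [Fact p.Prime] (S : Finset (G p)) (s s' K : ℝ), 1 / 2 < s → 0 ≤ s' → K = 2 * s' * p →
  ∀ g ∈ S, ∀ r : W p, (r, rmul r g) ∈ DD S s → (r, rmul r g) ∉ FF S s K →
  ∃ x : ℙ (ZMod p) (Fin 2 → ZMod p),
    s' * (p * (p - 1)) ≤ ({h | h ∈ (S : Set (G p)) ∧ h • x = g • x}.ncard : ℝ)

/-- SW. Sylow cosets are lines.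
PROOF. `P' = g P g⁻¹` is a `p`-group. It acts on the set of the `p²` rows by `u • r = r u⁻¹`, the number of fixed points is
congruent to `p²`, so divisible by `p` (`IsPGroup.card_modEq_card_fixedPoints`), and `0` is a fixed point: there is a fixed row
`r ≠ 0`. If `g⁻¹ h ∈ P` then `h g⁻¹ = g (g⁻¹ h) g⁻¹ ∈ P'` and `r h = (r (h g⁻¹)) g = r g`. So
`{h ∈ S : g⁻¹ h ∈ P} ⊆ {h ∈ S : r h = r g}`. -/
def StSW : Prop := ∀ (p : ℕ) [Fact p.Prime] (S : Finset (G p)) (g : G p) (P : Sylow p (G p)),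
  ∃ r : W p, r ≠ 0 ∧ ({h | h ∈ (S : Set (G p)) ∧ g⁻¹ * h ∈ P}.ncard : ℝ) ≤ dl S r (rmul r g)

/-- FI. The theorem. Hypotheses: LN, DN, NU, LT, HV, SW, `StT2` of Helper70/EC.
PROOF. `N` = the left side, `n = p(p²-1)`, `(3/4) p³ ≤ n ≤ p³`. `r g ≠ 0` for `r ≠ 0`. If `s > 1` the set is empty (SW and LN:
`dl ≤ p`). Let `s ≤ 1`, so `(2s-1)^(-2/3) ≥ 1`. `N ≤ |S| ≤ n ≤ p^(2/5) n^(13/15)`; this is enough if `p < 40000` (`40000^(2/5) < 70`).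
Let `p ≥ 40000`, `s' = (40000/p)^(1/5) ≤ 1`, `K = 2 s' p`, `F = FF S s K`. By SW every `g` in the set has a row `r ≠ 0` with
`(r, r g) ∈ DD S s`. If it is in `F`: at most `2 |F|` elements (LT). Otherwise HV and `StT2` (`40000 ≤ s'^5 p`): at most
`100 s'^(-1/2) n^(5/6) = 100 (p/40000)^(1/10) n^(5/6) ≤ 35 p^(1/10) n^(5/6) ≤ 36 n^(13/15)` elements. DN, NU: either
`|F| ≤ (40/(2s-1))^(2/3) p^(7/3) (2 s' p)^(1/3) ≤ 11.7 · 2.56 (2s-1)^(-2/3) p^(13/5)`, and `p^(13/5) ≤ ((4/3) n)^(13/15) ≤ 1.29 n^(13/15)`: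
`N ≤ 2|F| + 36 n^(13/15) ≤ 78 (2s-1)^(-2/3) n^(13/15) + 36 n^(13/15)`; or `p³ < 1600 K p/(2s-1)² = 3200 · 40000^(1/5) p^(9/5)/(2s-1)²`,
so `(2s-1)² < 27000 p^(-6/5)`, `(2s-1)^(-2/3) > p^(2/5)/30` and `N ≤ n ≤ p^(2/5) n^(13/15) ≤ 30 (2s-1)^(-2/3) n^(13/15)`. -/
def StFI : Prop := ∀ (p : ℕ) [Fact p.Prime] (S : Set (G p)), (∀ x ∈ S, ∀ y ∈ S, x * y ∉ S) →
  ∀ s : ℝ, 1 / 2 < s →
  ({g | g ∈ S ∧ ∃ P : Sylow p (G p), s * p ≤ ({h | h ∈ S ∧ g⁻¹ * h ∈ P}.ncard : ℝ)}.ncard : ℝ) ≤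
    200 * (2 * s - 1) ^ (-(2 / 3) : ℝ) * ((p * (p ^ 2 - 1) : ℕ) : ℝ) ^ (13 / 15 : ℝ)

end Pool.Agent.Helper94.SY
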